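import Pool.Agent.W957.CH.Stm

/-! Project CH: end clumps (EC1, EC2). -/

set_option autoImplicit false

namespace Pool.Agent.W236.CH

open Finset
open Pool.Agent.W957.CH

variable {V : Type}

/-- the graph induced on `P` -/
def HP (G : SimpleGraph V) (P : Finset V) : SimpleGraph V where
  Adj a b := G.Adj a b ∧ a ∈ P ∧ b ∈ P
  symm := ⟨fun _ _ h => ⟨h.1.symm, h.2.2, h.2.1⟩⟩
  loopless := ⟨fun _ h => G.loopless.irrefl _ h.1⟩

theorem mem_nbr (G : SimpleGraph V) (A P : Finset V) (w : V) :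
    w ∈ nbr G A P ↔ w ∈ A ∧ w ∉ P ∧ ∃ p ∈ P, G.Adj p w := by
  classical
  unfold nbr
  rw [mem_filter]

theorem HP_mono {G : SimpleGraph V} {P Q : Finset V} (h : P ⊆ Q) {u v : V}
    (hr : (HP G P).Reachable u v) : (HP G Q).Reachable u v := by
  have hle : HP G P ≤ HP G Q := by
    intro a b hab
    exact ⟨hab.1, h hab.2.1, h hab.2.2⟩
  exact hr.mono hle

theorem mem_walk {G : SimpleGraph V} {P : Finset V} {u v : V} (w : (HP G P).Walk u v) (hu : u ∈ P) :
    ∀ x ∈ w.support, x ∈ P := by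
  induction w with
  | nil => intro x hx; simp at hx; rw [hx]; exact hu
  | cons h p ih =>
    intro x hx
    rw [SimpleGraph.Walk.support_cons, List.mem_cons] at hx
    rcases hx with rfl | hx
    · exact hu
    · exact ih h.2.2 x hx

theorem path_of_reach {G : SimpleGraph V} {P : Finset V} {u v : V}
    (hr : (HP G P).Reachable u v) (hu : u ∈ P) : ∃ l, PF G u v l ∧ ∀ x ∈ l, x ∈ P := by
  classical
  obtain ⟨w, hw⟩ := hr.exists_isPath
  refine ⟨w.support, ⟨⟨hw.support_nodup, ?_⟩, ?_, ?_⟩, mem_walk w hu⟩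
  · exact (w.isChain_adj_support).imp (fun _ _ h => h.1)
  · cases w <;> simp
  · rw [List.getLast?_eq_getLast_of_ne_nil w.support_ne_nil]
    simp

theorem reach_of_path {G : SimpleGraph V} {P : Finset V} (l : List V) :
    ∀ {u v : V}, l.IsChain G.Adj → l.head? = some u → l.getLast? = some v → (∀ x ∈ l, x ∈ P) →
    (HP G P).Reachable u v := by
  induction l with
  | nil => intro u v _ h; simp at h
  | cons a l ih =>
    intro u v hc hh hl hm
    simp only [List.head?_cons, Option.some.injEq] at hh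
    subst hh
    rcases l with _ | ⟨b, l⟩
    · simp at hl
      rw [hl]
    · rw [List.isChain_cons_cons] at hc
      have h1 : (HP G P).Reachable b v := ih hc.2 (by simp) (by simpa using hl)
        (fun x hx => hm x (List.mem_cons_of_mem _ hx))
      have h2 : (HP G P).Adj a b := ⟨hc.1, hm a (by simp), hm b (by simp)⟩
      exact h2.reachable.trans h1

theorem con_iff {G : SimpleGraph V} {P : Finset V} :
    Con G P ↔ P.Nonempty ∧ ∀ u ∈ P, ∀ v ∈ P, (HP G P).Reachable u v := by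
  constructor
  · rintro ⟨h1, h2⟩
    refine ⟨h1, fun u hu v hv => ?_⟩
    obtain ⟨l, ⟨⟨_, h3⟩, h4, h5⟩, h6⟩ := h2 u hu v hv
    exact reach_of_path l h3 h4 h5 h6
  · rintro ⟨h1, h2⟩
    exact ⟨h1, fun u hu v hv => path_of_reach (h2 u hu v hv) hu⟩

/-- a set closed under adjacency -/
theorem closed_reach {G : SimpleGraph V} {W C : Finset V}
    (hcl : ∀ x ∈ C, ∀ y ∈ W, G.Adj x y → y ∈ C) {u v : V} (hu : u ∈ C)
    (hr : (HP G W).Reachable u v) : v ∈ C := by
  obtain ⟨w⟩ := hr
  induction w with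
  | nil => exact hu
  | cons h p ih => exact ih (hcl _ hu _ h.2.2 h.1)

/-- basic lemma -/
theorem nbr_nonempty {G : SimpleGraph V} {W C : Finset V} (hW : Con G W) (hC : C.Nonempty)
    (hCW : C ⊆ W) (hne : C ≠ W) : (nbr G W C).Nonempty := by
  by_contra hcon
  rw [Finset.not_nonempty_iff_eq_empty] at hcon
  apply hne
  apply Finset.Subset.antisymm hCW
  intro w hw
  obtain ⟨c, hc⟩ := hC
  refine closed_reach (G := G) (W := W) ?_ hc ((con_iff.1 hW).2 c (hCW hc) w hw)
  intro x hx y hy hxy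
  by_contra hyC
  have : y ∈ nbr G W C := (mem_nbr G W C y).2 ⟨hy, hyC, x, hx, hxy⟩
  rw [hcon] at this
  simp at this

theorem nbr_eq_single [DecidableEq V] {G : SimpleGraph V} {W C : Finset V} {v : V} (hW : Con G W)
    (hC : C.Nonempty) (hCW : C ⊆ W) (hv : v ∈ W) (hvC : v ∉ C) (h : ∀ w ∈ nbr G W C, w = v) :
    nbr G W C = {v} := by
  obtain ⟨w, hw⟩ := nbr_nonempty hW hC hCW (by rintro rfl; exact hvC hv)
  ext x
  rw [mem_singleton]
  constructor
  · exact h x
  · rintro rfl
    rw [← h w hw]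
    exact hw

open Classical in
/-- component of `z` in `P` -/
noncomputable def cmp (G : SimpleGraph V) (P : Finset V) (z : V) : Finset V :=
  P.filter (fun x => (HP G P).Reachable z x)

theorem mem_cmp {G : SimpleGraph V} {P : Finset V} {z x : V} :
    x ∈ cmp G P z ↔ x ∈ P ∧ (HP G P).Reachable z x := by
  classical
  unfold cmp
  rw [mem_filter]

theorem cmp_sub {G : SimpleGraph V} {P : Finset V} {z : V} : cmp G P z ⊆ P :=
  fun _ hx => (mem_cmp.1 hx).1

theorem self_cmp {G : SimpleGraph V} {P : Finset V} {z : V} (hz : z ∈ P) : z ∈ cmp G P z :=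
  mem_cmp.2 ⟨hz, SimpleGraph.Reachable.refl _⟩

theorem cmp_closed {G : SimpleGraph V} {P : Finset V} {z x y : V} (hx : x ∈ cmp G P z)
    (hy : y ∈ P) (h : G.Adj x y) : y ∈ cmp G P z := by
  rw [mem_cmp] at hx ⊢
  have h2 : (HP G P).Adj x y := ⟨h, hx.1, hy⟩
  exact ⟨hy, hx.2.trans h2.reachable⟩

/-- paths in the component -/
theorem cmp_reach {G : SimpleGraph V} {P : Finset V} {z x : V} (hx : x ∈ cmp G P z) (hz : z ∈ P) :
    (HP G (cmp G P z)).Reachable z x := by
  obtain ⟨w⟩ := (mem_cmp.1 hx).2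
  have key : ∀ {u v : V} (w : (HP G P).Walk u v), u ∈ cmp G P z →
      (HP G (cmp G P z)).Reachable u v := by
    intro u v w
    induction w with
    | nil => intro _; exact SimpleGraph.Reachable.refl _
    | cons h p ih =>
      intro hu
      have h1 := cmp_closed hu h.2.2 h.1
      have h2 : (HP G (cmp G P z)).Adj _ _ := ⟨h.1, hu, h1⟩
      exact h2.reachable.trans (ih h1)
  exact key w (self_cmp hz)

theorem cmp_con {G : SimpleGraph V} {P : Finset V} {z : V} (hz : z ∈ P) :
    Con G (cmp G P z) := by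
  rw [con_iff]
  refine ⟨⟨z, self_cmp hz⟩, fun u hu v hv => ?_⟩
  exact (cmp_reach hu hz).symm.trans (cmp_reach hv hz)

variable [DecidableEq V]

/-- end clumps are connected -/
theorem ec_con {G : SimpleGraph V} {W T S : Finset V} {v : V} (hW : Con G W) (hS : EC G W T S)
    (hv : nbr G W S = {v}) : Con G S := by
  obtain ⟨⟨⟨z, hz⟩, hSW, hST, _, hn⟩, hmin⟩ := hS
  have hvn : v ∈ nbr G W S := by rw [hv]; exact mem_singleton_self v
  have hvn' := (mem_nbr G W S v).1 hvn
  have hCS : cmp G S z ⊆ S := cmp_sub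
  have hnb : nbr G W (cmp G S z) = {v} := by
    apply nbr_eq_single hW ⟨z, self_cmp hz⟩ (hCS.trans hSW) hvn'.1 (fun h => hvn'.2.1 (hCS h))
    intro w hw
    rw [mem_nbr] at hw
    obtain ⟨hwW, hwC, p, hp, hpw⟩ := hw
    have hwS : w ∉ S := fun h => hwC (cmp_closed hp h hpw)
    have : w ∈ nbr G W S := (mem_nbr G W S w).2 ⟨hwW, hwS, p, hCS hp, hpw⟩
    rw [hv, mem_singleton] at this
    exact this
  have hpen : Pen G W T (cmp G S z) := by
    refine ⟨⟨z, self_cmp hz⟩, hCS.trans hSW, disjoint_of_subset_left hCS hST, ?_, ?_⟩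
    · rw [hnb]; simp
    · rw [hnb]
      intro h
      apply hn
      rw [hv]
      exact h.trans (union_subset_union_left hCS)
  have heq : cmp G S z = S := by
    by_contra hne
    exact hmin _ ⟨hCS, fun h => hne (Subset.antisymm hCS h)⟩ hpen
  rw [← heq]
  exact cmp_con hz

theorem con_insert {G : SimpleGraph V} {S : Finset V} {v p : V} (hS : Con G S) (hp : p ∈ S)
    (h : G.Adj p v) : Con G (insert v S) := by
  rw [con_iff] at hS ⊢
  refine ⟨⟨v, mem_insert_self _ _⟩, ?_⟩
  have key : ∀ x ∈ insert v S, (HP G (insert v S)).Reachable p x := by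
    intro x hx
    rw [mem_insert] at hx
    rcases hx with rfl | hx
    · have h2 : (HP G (insert x S)).Adj p x := ⟨h, mem_insert_of_mem hp, mem_insert_self _ _⟩
      exact h2.reachable
    · exact HP_mono (subset_insert _ _) (hS.2 p hp x hx)
  intro x hx y hy
  exact (key x hx).symm.trans (key y hy)

/-- a component of `(S + v) - u` contains `v` -/
theorem ec_cmp {G : SimpleGraph V} {W T S : Finset V} {v u z : V} (hW : Con G W)
    (hS : EC G W T S) (hv : nbr G W S = {v}) (hu : u ∈ S) (hz : z ∈ (insert v S).erase u)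
    (hvC : v ∉ cmp G ((insert v S).erase u) z) : False := by
  obtain ⟨⟨_, hSW, hST, _, _⟩, hmin⟩ := hS
  have hvn : v ∈ nbr G W S := by rw [hv]; exact mem_singleton_self v
  have hvn' := (mem_nbr G W S v).1 hvn
  have huv : u ≠ v := by rintro rfl; exact hvn'.2.1 hu
  set C := cmp G ((insert v S).erase u) z with hC
  have hCS : C ⊆ S := by
    intro x hx
    have h1 := cmp_sub (hC ▸ hx)
    rw [mem_erase, mem_insert] at h1
    rcases h1.2 with rfl | h2
    · exact absurd hx hvC
    · exact h2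
  have huC : u ∉ C := by
    intro h
    have h1 := cmp_sub (hC ▸ h)
    rw [mem_erase] at h1
    exact h1.1 rfl
  have hnb : nbr G W C = {u} := by
    apply nbr_eq_single hW ⟨z, self_cmp hz⟩ (hCS.trans hSW) (hSW hu) huC
    intro w hw
    rw [mem_nbr] at hw
    obtain ⟨hwW, hwC, p, hp, hpw⟩ := hw
    by_contra hwu
    apply hwC
    apply cmp_closed hp _ hpw
    rw [mem_erase, mem_insert]
    refine ⟨hwu, ?_⟩
    by_cases hwS : w ∈ S
    · exact Or.inr hwS
    · left
      have : w ∈ nbr G W S := (mem_nbr G W S w).2 ⟨hwW, hwS, p, hCS hp, hpw⟩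
      rw [hv, mem_singleton] at this
      exact this
  refine hmin C ⟨hCS, fun h => huC (h hu)⟩ ⟨⟨z, self_cmp hz⟩, hCS.trans hSW,
    disjoint_of_subset_left hCS hST, by rw [hnb]; simp, ?_⟩
  intro h
  have h1 := h hvn'.1
  rw [hnb, mem_union, mem_singleton] at h1
  rcases h1 with h1 | h1
  · exact hvC h1
  · exact huv h1.symm

theorem pf_reverse {G : SimpleGraph V} {s t z : V} {l1 l2 : List V}
    (h : PF G s t (l1 ++ z :: l2)) : PF G t s (l2.reverse ++ z :: l1.reverse) := by
  have he : l2.reverse ++ z :: l1.reverse = (l1 ++ z :: l2).reverse := by simp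
  rw [he]
  obtain ⟨⟨h1, h2⟩, h3, h4⟩ := h
  refine ⟨⟨List.nodup_reverse.2 h1, ?_⟩, by rw [List.head?_reverse]; exact h4,
    by rw [List.getLast?_reverse]; exact h3⟩
  rw [List.isChain_reverse]
  exact h2.imp (fun _ _ h => h.symm)

theorem t_EC1 (h : S_FAN) : S_EC1 := by
  intro V _ G W T S v hW hS hv
  have hSc := ec_con hW hS hv
  have hvn : v ∈ nbr G W S := by rw [hv]; exact mem_singleton_self v
  obtain ⟨hvW, hvS, p, hp, hpv⟩ := (mem_nbr G W S v).1 hvn
  refine ⟨hSc, con_insert hSc hp hpv, ?_⟩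
  intro x hx y hy z hz hxy hxz hyz
  have key := h V G (insert v S) {x, y} z hz
    (by intro w hw; rw [mem_insert, mem_singleton] at hw; rcases hw with rfl | rfl <;> assumption)
    (by rw [mem_insert, mem_singleton]; rintro (rfl | rfl); exacts [hxz rfl, hyz rfl])
    ⟨x, mem_insert_self _ _⟩ (by
      intro u hu huz
      have hzP : z ∈ (insert v S).erase u := mem_erase.2 ⟨huz.symm, hz⟩
      have hgood : ∀ t, t ∈ cmp G ((insert v S).erase u) z → ∃ l, PF G z t l ∧
          ∀ x ∈ l, x ∈ insert v S ∧ x ≠ u := by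
        intro t ht
        obtain ⟨l, hl, hl2⟩ := path_of_reach (mem_cmp.1 ht).2 hzP
        refine ⟨l, hl, fun x hx => ?_⟩
        have := hl2 x hx
        rw [mem_erase] at this
        exact ⟨this.2, this.1⟩
      by_cases hxC : x ∈ cmp G ((insert v S).erase u) z
      · exact ⟨x, by simp, hgood x hxC⟩
      by_cases hyC : y ∈ cmp G ((insert v S).erase u) z
      · exact ⟨y, by simp, hgood y hyC⟩
      exfalso
      by_cases huv : u = v
      · subst huv
        have hP : (insert u S).erase u = S := erase_insert hvS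
        rw [hP] at hxC hyC hzP
        have hall : ∀ w ∈ S, w ∈ cmp G S z := fun w hw =>
          mem_cmp.2 ⟨hw, (con_iff.1 hSc).2 z hzP w hw⟩
        rw [mem_insert] at hx hy
        rcases hx with rfl | hx
        · rcases hy with rfl | hy
          · exact hxy rfl
          · exact hyC (hall y hy)
        · exact hxC (hall x hx)
      · have huS : u ∈ S := by
          rw [mem_insert] at hu
          exact hu.resolve_left huv
        by_cases hvC : v ∈ cmp G ((insert v S).erase u) z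
        · obtain ⟨x', hx', hx'u, hx'C⟩ : ∃ x', x' ∈ insert v S ∧ x' ≠ u ∧
              x' ∉ cmp G ((insert v S).erase u) z := by
            by_cases hxu : x = u
            · exact ⟨y, hy, fun h => hxy (hxu.trans h.symm), hyC⟩
            · exact ⟨x, hx, hxu, hxC⟩
          refine ec_cmp hW hS hv huS (z := x') (mem_erase.2 ⟨hx'u, hx'⟩) ?_
          intro hvC'
          apply hx'C
          rw [mem_cmp] at hvC hvC' ⊢
          exact ⟨mem_erase.2 ⟨hx'u, hx'⟩, hvC.2.trans hvC'.2.symm⟩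
        · exact ec_cmp hW hS hv huS hzP hvC)
  obtain ⟨s, hs, t, ht, hst, l1, l2, hpf, hmem⟩ := key
  rw [mem_insert, mem_singleton] at hs ht
  rcases hs with rfl | rfl
  · rcases ht with rfl | rfl
    · exact absurd rfl hst
    · exact ⟨l1, l2, hpf, hmem⟩
  · rcases ht with rfl | rfl
    · refine ⟨l2.reverse, l1.reverse, pf_reverse hpf, fun u hu => hmem u ?_⟩
      simp only [List.mem_append, List.mem_reverse, List.mem_cons] at hu ⊢
      tauto
    · exact absurd rfl hst

/-- an edge leaving `S ∩ S'` inside `S` -/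
theorem cross {G : SimpleGraph V} {W S S' : Finset V} {v' : V} (hS : Con G S) (hSW : S ⊆ W)
    (hv' : nbr G W S' = {v'}) (h1 : ∃ a ∈ S, a ∈ S') (h2 : ¬ S ⊆ S') : v' ∈ S := by
  obtain ⟨a, haS, haS'⟩ := h1
  by_contra hcon
  apply h2
  intro b hb
  refine (mem_inter.1 (closed_reach (G := G) (W := S) (C := S ∩ S') ?_ (mem_inter.2 ⟨haS, haS'⟩)
    ((con_iff.1 hS).2 a haS b hb))).2
  intro x hx y hy hxy
  rw [mem_inter] at hx ⊢
  refine ⟨hy, ?_⟩
  by_contra hyS'
  have : y ∈ nbr G W S' := (mem_nbr G W S' y).2 ⟨hSW hy, hyS', x, hx.2, hxy⟩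
  rw [hv', mem_singleton] at this
  exact hcon (this ▸ hy)

/-- the difference of two overlapping end clumps -/
theorem diff_sub {G : SimpleGraph V} {W T S S' : Finset V} {v v' : V} (hW : Con G W)
    (hS' : EC G W T S') (hSW : S ⊆ W) (hv : nbr G W S = {v}) (hv' : nbr G W S' = {v'})
    (hvS' : v ∈ S') (hv'S : v' ∈ S) : ∀ x ∈ S', x ∉ S → x = v := by
  obtain ⟨⟨_, hSW', hST', _, _⟩, hmin⟩ := hS'
  have hvn : v ∈ nbr G W S := by rw [hv]; exact mem_singleton_self v
  obtain ⟨hvW, hvS, _⟩ := (mem_nbr G W S v).1 hvn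
  have hvn' : v' ∈ nbr G W S' := by rw [hv']; exact mem_singleton_self v'
  obtain ⟨hv'W, hv'S', _⟩ := (mem_nbr G W S' v').1 hvn'
  by_contra hcon
  push Not at hcon
  obtain ⟨x, hxS', hxS, hxv⟩ := hcon
  set T1 := (S' \ S).erase v with hT1
  have hT1S' : T1 ⊆ S' := fun y hy => (mem_sdiff.1 (mem_of_mem_erase hy)).1
  have hxT1 : x ∈ T1 := mem_erase.2 ⟨hxv, mem_sdiff.2 ⟨hxS', hxS⟩⟩
  have hvT1 : v ∉ T1 := fun h => (mem_erase.1 h).1 rfl
  have hnb : nbr G W T1 = {v} := by
    apply nbr_eq_single hW ⟨x, hxT1⟩ (hT1S'.trans hSW') hvW hvT1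
    intro w hw
    rw [mem_nbr] at hw
    obtain ⟨hwW, hwT1, p, hp, hpw⟩ := hw
    have hp' := mem_erase.1 hp
    have hp'' := mem_sdiff.1 hp'.2
    have hwS : w ∉ S := by
      intro hwS
      have : p ∈ nbr G W S := (mem_nbr G W S p).2 ⟨hSW' hp''.1, hp''.2, w, hwS, hpw.symm⟩
      rw [hv, mem_singleton] at this
      exact hp'.1 this
    have hwS' : w ∈ S' := by
      by_contra hwS'
      have : w ∈ nbr G W S' := (mem_nbr G W S' w).2 ⟨hwW, hwS', p, hp''.1, hpw⟩
      rw [hv', mem_singleton] at this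
      exact hwS (this ▸ hv'S)
    by_contra hwv
    exact hwT1 (mem_erase.2 ⟨hwv, mem_sdiff.2 ⟨hwS', hwS⟩⟩)
  refine hmin T1 ⟨hT1S', fun h => hvT1 (h hvS')⟩ ⟨⟨x, hxT1⟩, hT1S'.trans hSW',
    disjoint_of_subset_left hT1S' hST', by rw [hnb]; simp, ?_⟩
  intro h
  have h1 := h hv'W
  rw [hnb, mem_union, mem_singleton] at h1
  rcases h1 with h1 | h1
  · exact hv'S' (hT1S' h1)
  · exact hv'S' (h1 ▸ hvS')

/-- the union is everything -/
theorem union_all {G : SimpleGraph V} {W S S' : Finset V} {v v' : V} (hW : Con G W)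
    (hSn : S.Nonempty) (hSW : S ⊆ W) (hSW' : S' ⊆ W) (hv : nbr G W S = {v})
    (hv' : nbr G W S' = {v'}) (hvS' : v ∈ S') (hv'S : v' ∈ S) : S ∪ S' = W := by
  by_contra hne
  obtain ⟨w, hw⟩ := nbr_nonempty hW (hSn.mono subset_union_left) (union_subset hSW hSW') hne
  rw [mem_nbr] at hw
  obtain ⟨hwW, hwU, p, hp, hpw⟩ := hw
  rw [mem_union, not_or] at hwU
  rw [mem_union] at hp
  rcases hp with hp | hp
  · have : w ∈ nbr G W S := (mem_nbr G W S w).2 ⟨hwW, hwU.1, p, hp, hpw⟩
    rw [hv, mem_singleton] at this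
    exact hwU.2 (this ▸ hvS')
  · have : w ∈ nbr G W S' := (mem_nbr G W S' w).2 ⟨hwW, hwU.2, p, hp, hpw⟩
    rw [hv', mem_singleton] at this
    exact hwU.1 (this ▸ hv'S)

theorem t_EC2 : S_EC2 := by
  intro V _ G W T S S' v v' hW hS hS' hne hv hv'
  have hSc := ec_con hW hS hv
  have hSc' := ec_con hW hS' hv'
  have hvn : v ∈ nbr G W S := by rw [hv]; exact mem_singleton_self v
  obtain ⟨hvW, hvS, s, hs, hsv⟩ := (mem_nbr G W S v).1 hvn
  have hSW : S ⊆ W := hS.1.2.1
  have hSW' : S' ⊆ W := hS'.1.2.1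
  have hdis : Disjoint S S' := by
    rw [Finset.disjoint_left]
    intro a haS haS'
    have h1 : ¬ S ⊆ S' := fun h => hS'.2 S ⟨h, fun h2 => hne (Subset.antisymm h h2)⟩ hS.1
    have h2 : ¬ S' ⊆ S := fun h => hS.2 S' ⟨h, fun h2 => hne (Subset.antisymm h2 h)⟩ hS'.1
    have hv'S : v' ∈ S := cross hSc hSW hv' ⟨a, haS, haS'⟩ h1
    have hvS' : v ∈ S' := cross hSc' hSW' hv ⟨a, haS', haS⟩ h2
    have h3 := diff_sub hW hS' hSW hv hv' hvS' hv'S
    have h4 := union_all hW hS.1.1 hSW hSW' hv hv' hvS' hv'S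
    apply hS.1.2.2.2.2
    intro w hw
    rw [hv, mem_union, mem_singleton]
    rw [← h4, mem_union] at hw
    by_cases hwS : w ∈ S
    · exact Or.inl hwS
    · exact Or.inr (h3 w (hw.resolve_left hwS) hwS)
  refine ⟨hdis, fun hvS' => ?_⟩
  have hdl := Finset.disjoint_left.1 hdis
  have hv'S : v' ∈ S := by
    have : s ∈ nbr G W S' := (mem_nbr G W S' s).2 ⟨hSW hs, hdl hs, v, hvS', hsv.symm⟩
    rw [hv', mem_singleton] at this
    exact this ▸ hs
  have h4 := union_all hW hS.1.1 hSW hSW' hv hv' hvS' hv'S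
  set T1 := S'.erase v with hT1
  have hT1S' : T1 ⊆ S' := erase_subset _ _
  have hvT1 : v ∉ T1 := fun h => (mem_erase.1 h).1 rfl
  have hT1n : T1.Nonempty := by
    by_contra hcon
    rw [Finset.not_nonempty_iff_eq_empty] at hcon
    apply hS.1.2.2.2.2
    intro w hw
    rw [hv, mem_union, mem_singleton]
    rw [← h4, mem_union] at hw
    rcases hw with hw | hw
    · exact Or.inl hw
    · right
      by_contra hwv
      have : w ∈ T1 := mem_erase.2 ⟨hwv, hw⟩
      rw [hcon] at this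
      simp at this
  have hnb : nbr G W T1 = {v} := by
    apply nbr_eq_single hW hT1n (hT1S'.trans hSW') hvW hvT1
    intro w hw
    rw [mem_nbr] at hw
    obtain ⟨hwW, hwT1, p, hp, hpw⟩ := hw
    have hp' := mem_erase.1 hp
    by_contra hwv
    have hwS : w ∈ S := by
      rw [← h4, mem_union] at hwW
      rcases hwW with h | h
      · exact h
      · exact absurd (mem_erase.2 ⟨hwv, h⟩) hwT1
    have : p ∈ nbr G W S := (mem_nbr G W S p).2
      ⟨hSW' hp'.2, fun h => hdl h hp'.2, w, hwS, hpw.symm⟩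
    rw [hv, mem_singleton] at this
    exact hp'.1 this
  refine hS'.2 T1 ⟨hT1S', fun h => hvT1 (h hvS')⟩ ⟨hT1n, hT1S'.trans hSW',
    disjoint_of_subset_left hT1S' hS'.1.2.2.1, by rw [hnb]; simp, ?_⟩
  intro h
  have h1 := h (hSW hs)
  rw [hnb, mem_union, mem_singleton] at h1
  rcases h1 with h1 | h1
  · exact hdl hs (hT1S' h1)
  · exact hvS (h1 ▸ hs)

end Pool.Agent.W236.CH
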